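import Pool.Agent.Helper65.KG.Goals

/-!
# Project KG (MP_20ee5e_ag), packet NM6: numbers for N = 6
-/

set_option autoImplicit false

namespace Pool.Agent.Helper14.KG.NM6

open Pool.Agent.Helper70.KN Pool.Agent.Helper65.KG

theorem t : S_NM6 := by
  obtain ⟨k0, k1, k2⟩ := pKP 6 (by norm_num)
  refine ⟨69 / 50, 22 / 45, by norm_num, fun σ hσ => ?_, by norm_num [th], by norm_num⟩
  rcases hσ.eq_or_lt with h | h
  · rw [← h, k0]
    norm_num
  rcases le_total σ 2 with h2 | h2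
  · rw [k1 σ h h2, le_div_iff₀ h]
    obtain ⟨u, hu⟩ : ∃ u : ℝ, u = 1 - σ / 2 := ⟨_, rfl⟩
    have hs : σ = 2 * (1 - u) := by linarith
    have hu0 : 0 ≤ u := by linarith
    have hu1 : 0 ≤ 1 - u := by linarith
    have hp : 0 ≤ (1 + u + u ^ 2 + u ^ 3 + u ^ 4 + u ^ 5) - 69 / 25 + 88 / 45 * (1 - u) := by
      have q2 : 0 ≤ (u - 36 / 125) ^ 2 := sq_nonneg _
      have q3 : 0 ≤ (u - 36 / 125) ^ 2 * (u + 2 * (36 / 125)) := by positivity
      have q4 : 0 ≤ (u - 36 / 125) ^ 2 *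
          (u ^ 2 + 2 * (36 / 125) * u + 3 * (36 / 125) ^ 2) := by positivity
      have q5 : 0 ≤ (u - 36 / 125) ^ 2 *
          (u ^ 3 + 2 * (36 / 125) * u ^ 2 + 3 * (36 / 125) ^ 2 * u + 4 * (36 / 125) ^ 3) := by
        positivity
      nlinarith
    rw [← hu, hs]
    have h3 := mul_nonneg hu1 hp
    nlinarith
  · rw [k2 σ h2, le_div_iff₀ h]
    nlinarith [sq_nonneg (σ - 7 / 5)]

end Pool.Agent.Helper14.KG.NM6
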